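import Pool.Agent.U588.FS.Ex

set_option autoImplicit false
open Filter Topology MeasureTheory
open scoped ComplexConjugate InnerProductSpace ENNReal

namespace Pool.Agent.U588.FS

open Pool.Agent.Helper34

/-- The operators used in the counterexample. -/
lemma exists_ops : ∃ (g : Dg.T → ℂ) (T T' : L), g ∈ Dg.HInf ∧
    Toep (fun n : ℕ => fourierCoeff g n) T ∧ Toep (fun n : ℕ => conj (fourierCoeff g n)) T' ∧
    ∀ P W : ℕ → L, PW P W → ¬ Tendsto (fun n => ‖Xo P T n * Yo P T n‖) atTop (𝓝 0) := by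
  obtain ⟨u, g, hg, hu⟩ := exists_rep
  have hO := ortho_of_rep hg
  obtain ⟨T, hT⟩ := exists_toep hO
  obtain ⟨T', hT'⟩ := exists_toep (ortho_conj hO)
  refine ⟨g, T, T', hg.mem, hT, hT', fun P W h hlim => ?_⟩
  have hlow : ∀ k : ℕ, (1 / 4 : ℝ) ^ 5 ≤
      ‖Xo P T (5 * 2 ^ (k + 1) - 1) * Yo P T (5 * 2 ^ (k + 1) - 1)‖ := by
    intro k
    have h0 : 0 < rad k := by linarith [rad_pos k]
    have h1 : rad k < 1 := rad_lt k
    obtain ⟨y, hy⟩ := exists_ker h0 h1
    have hz := rep_zero hg h0.le h1 (hu k)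
    have hz' : HasSum (fun n : ℕ => conj (fourierCoeff g n) * (rad k : ℂ) ^ n) 0 := by
      have h2 := hz.map (starRingEnd ℂ) Complex.continuous_conj
      simpa only [Function.comp_def, map_mul, map_pow, Complex.conj_ofReal, map_zero] using h2
    have hTy := kernel_vec hT hy hz'
    have hTy' : ContinuousLinearMap.adjoint T' y = 0 := by
      refine kernel_vec hT' hy ?_
      simpa only [Complex.conj_conj] using hz
    have h3 := lower h hy hT hT' (fun n => rfl) hTy hTy' (5 * 2 ^ (k + 1) - 1)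
    exact (lower_num k).trans h3
  have hn : Tendsto (fun k : ℕ => 5 * 2 ^ (k + 1) - 1) atTop atTop := by
    refine tendsto_atTop_mono (fun k => show k ≤ 5 * 2 ^ (k + 1) - 1 from ?_) tendsto_id
    have := Nat.lt_two_pow_self (n := k + 1)
    omega
  have h4 := ge_of_tendsto' (hlim.comp hn) hlow
  norm_num at h4

/-- Restriction to the first coordinates composed with a reindexing, as an operator. -/
lemma exists_cut (n : ℕ) (σ : ℕ → ℕ) : ∃ A : L, ∀ (x : E) (j : ℕ),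
    (A x) j = if j ≤ n then x (σ j) else 0 := by
  have hc : ∀ i : ℕ, ∃ f : E →L[ℂ] ℂ, ∀ x, f x = x i := fun i =>
    ⟨innerSL ℂ (ee i), fun x => by rw [innerSL_apply_apply, inner_ee]⟩
  choose f hf using hc
  refine ⟨∑ i ∈ Finset.range (n + 1), (f (σ i)).smulRight (ee i), fun x j => ?_⟩
  rw [sum_apply, lp.coeFn_sum, Finset.sum_apply]
  simp only [ContinuousLinearMap.smulRight_apply, lp.coeFn_smul, Pi.smul_apply, ee_apply, hf,
    smul_eq_mul, mul_ite, mul_one, mul_zero]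
  rw [Finset.sum_ite_eq]
  simp only [Finset.mem_range]
  congr 1
  exact propext ⟨fun h => by omega, fun h => by omega⟩

lemma exists_PW : ∃ P W : ℕ → L, PW P W := by
  choose P hP using fun n => exists_cut n id
  choose W hW using fun n => exists_cut n (fun j => n - j)
  exact ⟨P, W, ⟨fun n x j => hP n x j, fun n x j => hW n x j⟩⟩

lemma vol_eq : (volume : Measure (AddCircle (1 : ℝ))) = AddCircle.haarAddCircle := by
  rw [AddCircle.volume_eq_smul_haarAddCircle, ENNReal.ofReal_one, one_smul]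

lemma exists_lp {g : Dg.T → ℂ} (hg : MemLp g ∞ Dg.mu) :
    ∃ a : Lp ℂ ⊤ (volume : Measure (AddCircle (1 : ℝ))), ∀ n : ℤ,
      fourierCoeff (⇑a : AddCircle (1 : ℝ) → ℂ) n = fourierCoeff g n := by
  have hg' : MemLp g ⊤ (volume : Measure (AddCircle (1 : ℝ))) := by
    rw [vol_eq]; exact hg
  refine ⟨hg'.toLp g, fun n => ?_⟩
  have h1 := hg'.coeFn_toLp
  have h2 : (⇑(hg'.toLp g) : AddCircle (1 : ℝ) → ℂ) =ᵐ[AddCircle.haarAddCircle] g := by
    rw [← vol_eq]; exact h1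
  rw [fourierCoeff_congr_ae h2]

lemma mem_adjoin {g : Dg.T → ℂ} (hg : g ∈ Dg.HInf) {T : L}
    (hT : Toep (fun n : ℕ => fourierCoeff g n) T) {P : ℕ → L} :
    (fun n => Xo P T n * Yo P T n) ∈ NonUnitalAlgebra.adjoin ℂ
      {G : ℕ → (lp (fun _ : ℕ => ℂ) 2 →L[ℂ] lp (fun _ : ℕ => ℂ) 2) |
        ∃ a : Lp ℂ ⊤ (volume : Measure (AddCircle (1 : ℝ))),
        ∃ T : lp (fun _ : ℕ => ℂ) 2 →L[ℂ] lp (fun _ : ℕ => ℂ) 2,
          (∀ j k : ℕ, (T (lp.single 2 k (1 : ℂ) : lp (fun _ : ℕ => ℂ) 2)) j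
              = fourierCoeff (⇑a : AddCircle (1 : ℝ) → ℂ) ((j : ℤ) - (k : ℤ))) ∧
          ∀ n, G n = P n * T * P n} := by
  set S : Set (ℕ → L) := {G : ℕ → (lp (fun _ : ℕ => ℂ) 2 →L[ℂ] lp (fun _ : ℕ => ℂ) 2) |
        ∃ a : Lp ℂ ⊤ (volume : Measure (AddCircle (1 : ℝ))),
        ∃ T : lp (fun _ : ℕ => ℂ) 2 →L[ℂ] lp (fun _ : ℕ => ℂ) 2,
          (∀ j k : ℕ, (T (lp.single 2 k (1 : ℂ) : lp (fun _ : ℕ => ℂ) 2)) j
              = fourierCoeff (⇑a : AddCircle (1 : ℝ) → ℂ) ((j : ℤ) - (k : ℤ))) ∧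
          ∀ n, G n = P n * T * P n} with hS
  have m0 : (fun n => P n * 1 * P n) ∈ NonUnitalAlgebra.adjoin ℂ S := by
    apply NonUnitalAlgebra.subset_adjoin
    obtain ⟨a, ha⟩ := exists_lp (g := fun _ => (1 : ℂ)) (Dg.bdd_cont continuous_const)
    refine ⟨a, 1, fun j k => ?_, fun n => rfl⟩
    rw [ha, Dg.fc_one, one_apply_eq_self]
    change (ee k) j = _
    rw [ee_apply]
    by_cases hjk : j = k
    · subst hjk; simp
    · rw [if_neg hjk, if_neg (by omega)]
  have m1 : (fun n => P n * T * P n) ∈ NonUnitalAlgebra.adjoin ℂ S := by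
    apply NonUnitalAlgebra.subset_adjoin
    obtain ⟨a, ha⟩ := exists_lp (g := g) hg.1
    refine ⟨a, T, fun j k => ?_, fun n => rfl⟩
    rw [ha]
    change (T (ee k)) j = _
    rw [hT.e]
    by_cases hjk : k ≤ j
    · rw [if_pos hjk]; congr 1; omega
    · rw [if_neg hjk, hg.2 _ (by omega)]
  have m2 : (fun n => P n * ContinuousLinearMap.adjoint T * P n) ∈ NonUnitalAlgebra.adjoin ℂ S := by
    apply NonUnitalAlgebra.subset_adjoin
    obtain ⟨a, ha⟩ := exists_lp (g := fun t => conj (g t)) (Dg.bdd_conj hg.1)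
    refine ⟨a, ContinuousLinearMap.adjoint T, fun j k => ?_, fun n => rfl⟩
    rw [ha, Dg.fc_conj]
    change (ContinuousLinearMap.adjoint T (ee k)) j = _
    rw [adj_ee, hT.e]
    by_cases hjk : j ≤ k
    · rw [if_pos hjk]; congr 2; omega
    · rw [if_neg hjk, hg.2 _ (by omega)]
  have e : (fun n => Xo P T n * Yo P T n) =
      ((fun n => P n * 1 * P n) - (fun n => P n * ContinuousLinearMap.adjoint T * P n) *
        (fun n => P n * T * P n)) *
      ((fun n => P n * 1 * P n) - (fun n => P n * T * P n) *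
        (fun n => P n * ContinuousLinearMap.adjoint T * P n)) := by
    funext n
    rfl
  rw [e]
  exact mul_mem (sub_mem m0 (mul_mem m2 m1)) (sub_mem m0 (mul_mem m1 m2))

end Pool.Agent.U588.FS
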