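import Mathlib

set_option autoImplicit false
open Filter Topology
open scoped ComplexConjugate InnerProductSpace

namespace Pool.Agent.U588.FS

/-- The Hilbert space `ℓ²(ℕ)`. -/
abbrev E : Type := lp (fun _ : ℕ => ℂ) 2

/-- Bounded operators on `ℓ²(ℕ)`. -/
abbrev L : Type := E →L[ℂ] E

/-- The standard basis vectors. -/
noncomputable abbrev ee (k : ℕ) : E := lp.single 2 k (1 : ℂ)

lemma ee_apply (k j : ℕ) : (ee k) j = if j = k then (1 : ℂ) else 0 := by
  by_cases h : j = k
  · subst h; simp [ee]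
  · rw [if_neg h]; simp [ee, lp.single_apply, h]

lemma inner_ee (k : ℕ) (x : E) : ⟪ee k, x⟫_ℂ = x k := by
  rw [ee, lp.inner_single_left]; simp

lemma inner_ee' (k : ℕ) (x : E) : ⟪x, ee k⟫_ℂ = conj (x k) := by
  rw [← inner_conj_symm, inner_ee]

lemma smul_ee (k : ℕ) (a : ℂ) : lp.single 2 k a = a • ee k := by
  ext j
  rw [lp.coeFn_smul, Pi.smul_apply, ee_apply, smul_eq_mul]
  by_cases h : j = k
  · subst h; simp
  · rw [if_neg h]; simp [lp.single_apply, h]

lemma hasSum_ee (x : E) : HasSum (fun k => x k • ee k) x := by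
  have h := lp.hasSum_single (p := 2) (by norm_num) x
  have e : (fun k => x k • ee k) = fun k => lp.single 2 k (x k) := by
    funext k; rw [smul_ee]
  rw [e]; exact h

lemma ext_ee {A B : L} (h : ∀ k, A (ee k) = B (ee k)) : A = B := by
  ext1 x
  have h1 := (hasSum_ee x).mapL A
  have h2 := (hasSum_ee x).mapL B
  simp only [map_smul, h] at h1 h2
  exact h1.unique h2

lemma norm_ee (k : ℕ) : ‖ee k‖ = 1 := by
  simp [ee]

lemma norm_sq_eq (x : E) : ‖x‖ ^ 2 = (⟪x, x⟫_ℂ).re := by
  rw [inner_self_eq_norm_sq_to_K]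
  norm_cast

lemma adj_apply (A : L) (x : E) (j : ℕ) :
    (ContinuousLinearMap.adjoint A x) j = ⟪A (ee j), x⟫_ℂ := by
  rw [← inner_ee, ContinuousLinearMap.adjoint_inner_right]

lemma adj_ee (A : L) (k j : ℕ) :
    (ContinuousLinearMap.adjoint A (ee k)) j = conj ((A (ee j)) k) := by
  rw [adj_apply, inner_ee']

/-- `P` is the sequence of the projections onto the first coordinates, and `W` that of the
flips. -/
structure PW (P W : ℕ → L) : Prop where
  p : ∀ (n : ℕ) (x : E) (j : ℕ), (P n x) j = if j ≤ n then x j else 0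
  w : ∀ (n : ℕ) (x : E) (j : ℕ), (W n x) j = if j ≤ n then x (n - j) else 0

section

variable {P W : ℕ → L} (h : PW P W)
include h

lemma PW.pe (n k : ℕ) : P n (ee k) = if k ≤ n then ee k else 0 := by
  ext j
  rw [h.p]
  by_cases hk : k ≤ n
  · rw [if_pos hk, ee_apply]
    by_cases hj : j = k
    · subst hj; simp [hk]
    · simp [hj]
  · rw [if_neg hk, ee_apply]
    by_cases hj : j = k
    · subst hj; simp [hk]
    · simp [hj]

lemma PW.we (n k : ℕ) : W n (ee k) = if k ≤ n then ee (n - k) else 0 := by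
  ext j
  rw [h.w]
  by_cases hk : k ≤ n
  · rw [if_pos hk, ee_apply, ee_apply]
    by_cases hj : j ≤ n
    · rw [if_pos hj]
      congr 1
      exact propext ⟨fun h => by omega, fun h => by omega⟩
    · rw [if_neg hj, if_neg (by omega)]
  · rw [if_neg hk]
    simp only [ee_apply, lp.coeFn_zero, Pi.zero_apply]
    split_ifs with h1 h2
    · omega
    · rfl
    · rfl

lemma PW.pp (n : ℕ) : P n * P n = P n := by
  ext x j
  rw [mul_apply_eq_comp, h.p, h.p]
  split_ifs <;> rfl

lemma PW.ww (n : ℕ) : W n * W n = P n := by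
  ext x j
  rw [mul_apply_eq_comp, h.w, h.w, h.p]
  split_ifs with h1 h2
  · rw [show n - (n - j) = j by omega]
  · omega
  · rfl

lemma PW.pw (n : ℕ) : P n * W n = W n := by
  ext x j
  rw [mul_apply_eq_comp, h.p, h.w]
  split_ifs <;> rfl

lemma PW.wp (n : ℕ) : W n * P n = W n := by
  ext x j
  rw [mul_apply_eq_comp, h.w, h.w, h.p]
  split_ifs with h1 h2
  · rfl
  · omega
  · rfl

lemma PW.padj (n : ℕ) : ContinuousLinearMap.adjoint (P n) = P n := by
  ext x j
  rw [adj_apply, h.pe, h.p]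
  split_ifs
  · rw [inner_ee]
  · rw [inner_zero_left]

lemma PW.wadj (n : ℕ) : ContinuousLinearMap.adjoint (W n) = W n := by
  ext x j
  rw [adj_apply, h.we, h.w]
  split_ifs
  · rw [inner_ee]
  · rw [inner_zero_left]

lemma PW.pnorm (n : ℕ) (x : E) : ‖P n x‖ ≤ ‖x‖ := by
  have h1 : ⟪P n x, P n x⟫_ℂ = ⟪x, P n x⟫_ℂ := by
    conv_lhs => rw [← h.padj n]
    rw [ContinuousLinearMap.adjoint_inner_left, ← mul_apply_eq_comp, h.padj, h.pp]
  have h2 : ‖P n x‖ ^ 2 ≤ ‖x‖ * ‖P n x‖ := by
    rw [norm_sq_eq, h1]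
    exact (Complex.re_le_norm _).trans (norm_inner_le_norm _ _)
  by_contra hc
  push Not at hc
  nlinarith [norm_nonneg x, norm_nonneg (P n x)]

lemma PW.wnorm (n : ℕ) (x : E) : ‖W n x‖ ≤ ‖x‖ := by
  have h1 : ⟪W n x, W n x⟫_ℂ = ⟪x, P n x⟫_ℂ := by
    conv_lhs => rw [← h.wadj n]
    rw [ContinuousLinearMap.adjoint_inner_left, ← mul_apply_eq_comp, h.wadj, h.ww]
  have h2 : ‖W n x‖ ^ 2 ≤ ‖x‖ * ‖P n x‖ := by
    rw [norm_sq_eq, h1]
    exact (Complex.re_le_norm _).trans (norm_inner_le_norm _ _)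
  have h3 := h.pnorm n x
  by_contra hc
  push Not at hc
  nlinarith [norm_nonneg x, norm_nonneg (P n x)]

lemma PW.tendsto (x : E) : Tendsto (fun n => P n x) atTop (𝓝 x) := by
  have h1 := (hasSum_ee x).tendsto_sum_nat.comp (tendsto_add_atTop_nat 1)
  refine h1.congr fun n => ?_
  ext j
  simp only [Function.comp_apply]
  rw [h.p, lp.coeFn_sum, Finset.sum_apply]
  simp only [lp.coeFn_smul, Pi.smul_apply, ee_apply, smul_eq_mul, mul_ite, mul_one, mul_zero]
  rw [Finset.sum_ite_eq]
  simp only [Finset.mem_range]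
  congr 1
  exact propext ⟨fun h => by omega, fun h => by omega⟩

lemma PW.tendsto' {y : ℕ → E} {z : E} (hy : Tendsto y atTop (𝓝 z)) :
    Tendsto (fun n => P n (y n)) atTop (𝓝 z) := by
  have h1 : Tendsto (fun n => P n (y n - z)) atTop (𝓝 0) := by
    refine squeeze_zero_norm (fun n => h.pnorm n _) ?_
    have h2 := (hy.sub_const z).norm
    simpa using h2
  have h3 := h1.add (h.tendsto z)
  refine (h3.congr fun n => ?_).trans (by rw [zero_add])
  rw [← map_add, sub_add_cancel]

end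

/-- `T` is lower triangular Toeplitz with coefficients `c`. -/
structure Toep (c : ℕ → ℂ) (T : L) : Prop where
  e : ∀ j k : ℕ, (T (ee k)) j = if k ≤ j then c (j - k) else 0
  iso : ContinuousLinearMap.adjoint T * T = 1

/-- The first sequence. -/
noncomputable def Xo (P : ℕ → L) (T : L) (n : ℕ) : L :=
  P n * 1 * P n - (P n * ContinuousLinearMap.adjoint T * P n) * (P n * T * P n)

/-- The second sequence. -/
noncomputable def Yo (P : ℕ → L) (T : L) (n : ℕ) : L :=
  P n * 1 * P n - (P n * T * P n) * (P n * ContinuousLinearMap.adjoint T * P n)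

section

variable {P W : ℕ → L} (h : PW P W)
include h

lemma Toep.tp {c : ℕ → ℂ} {T : L} (hT : Toep c T) (n : ℕ) :
    P n * ContinuousLinearMap.adjoint T * P n = ContinuousLinearMap.adjoint T * P n := by
  apply ext_ee
  intro k
  simp only [mul_apply_eq_comp]
  rw [h.pe]
  split_ifs with hk
  · ext j
    rw [h.p, adj_ee, hT.e]
    split_ifs with h1 h2
    · rfl
    · rfl
    · omega
    · simp
  · simp

lemma Toep.pt {c : ℕ → ℂ} {T : L} (hT : Toep c T) (n : ℕ) :
    P n * T * P n = P n * T := by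
  have h1 := congrArg ContinuousLinearMap.adjoint (hT.tp h n)
  simpa only [ContinuousLinearMap.mul_def, ContinuousLinearMap.adjoint_comp, h.padj,
    ContinuousLinearMap.adjoint_adjoint, ContinuousLinearMap.comp_assoc] using h1

lemma Toep.wtw {c c' : ℕ → ℂ} {T T' : L} (hT : Toep c T) (hT' : Toep c' T')
    (hc : ∀ n, c' n = conj (c n)) (n : ℕ) :
    W n * T * W n = P n * ContinuousLinearMap.adjoint T' * P n := by
  apply ext_ee
  intro k
  simp only [mul_apply_eq_comp]
  rw [h.pe, h.we]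
  split_ifs with hk
  · ext j
    rw [h.w, h.p, adj_ee, hT'.e, hT.e]
    by_cases h1 : j ≤ n
    · rw [if_pos h1, if_pos h1]
      by_cases h2 : j ≤ k
      · rw [if_pos (by omega), if_pos h2, hc, Complex.conj_conj]
        congr 1; omega
      · rw [if_neg (by omega), if_neg h2, map_zero]
    · rw [if_neg h1, if_neg h1]
  · simp

lemma Toep.wtw' {c c' : ℕ → ℂ} {T T' : L} (hT : Toep c T) (hT' : Toep c' T')
    (hc : ∀ n, c' n = conj (c n)) (n : ℕ) :
    W n * ContinuousLinearMap.adjoint T * W n = P n * T' * P n := by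
  have h1 := congrArg ContinuousLinearMap.adjoint (hT.wtw h hT' hc n)
  simpa only [ContinuousLinearMap.mul_def, ContinuousLinearMap.adjoint_comp, h.padj, h.wadj,
    ContinuousLinearMap.adjoint_adjoint, ContinuousLinearMap.comp_assoc] using h1

lemma Yo_eq {c : ℕ → ℂ} {T : L} (hT : Toep c T) (n : ℕ) :
    Yo P T n = P n * (1 - T * ContinuousLinearMap.adjoint T) * P n := by
  unfold Yo
  rw [hT.pt h n, hT.tp h n, mul_one, mul_sub, sub_mul, mul_one]
  simp only [mul_assoc]

lemma wXw {c c' : ℕ → ℂ} {T T' : L} (hT : Toep c T) (hT' : Toep c' T')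
    (hc : ∀ n, c' n = conj (c n)) (n : ℕ) : W n * Xo P T n * W n = Yo P T' n := by
  have e1 : W n * Xo P T n * W n = W n * P n * P n * W n -
      (W n * P n * ContinuousLinearMap.adjoint T * (P n * P n) * T * (P n * W n)) := by
    unfold Xo; noncomm_ring
  have e2 : Yo P T' n = P n * P n - (W n * ContinuousLinearMap.adjoint T * W n) *
      (W n * T * W n) := by
    unfold Yo; rw [hT.wtw' h hT' hc, hT.wtw h hT' hc, mul_one]
  rw [e1, e2, h.wp, h.wp, h.pp, h.pw, h.ww]
  congr 1
  rw [← h.ww n]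
  simp only [mul_assoc]

lemma wYw {c c' : ℕ → ℂ} {T T' : L} (hT : Toep c T) (hT' : Toep c' T')
    (hc : ∀ n, c' n = conj (c n)) (n : ℕ) : W n * Yo P T n * W n = Xo P T' n := by
  have e1 : W n * Yo P T n * W n = W n * P n * P n * W n -
      (W n * P n * T * (P n * P n) * ContinuousLinearMap.adjoint T * (P n * W n)) := by
    unfold Yo; noncomm_ring
  have e2 : Xo P T' n = P n * P n - (W n * T * W n) *
      (W n * ContinuousLinearMap.adjoint T * W n) := by
    unfold Xo; rw [hT.wtw' h hT' hc, hT.wtw h hT' hc, mul_one]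
  rw [e1, e2, h.wp, h.wp, h.pp, h.pw, h.ww]
  congr 1
  rw [← h.ww n]
  simp only [mul_assoc]

lemma Xo_tendsto {c : ℕ → ℂ} {T : L} (hT : Toep c T) {y : ℕ → E} {z : E}
    (hy : Tendsto y atTop (𝓝 z)) : Tendsto (fun n => Xo P T n (y n)) atTop (𝓝 0) := by
  have e : ∀ n, Xo P T n (y n) = P n (P n (y n)) -
      P n (ContinuousLinearMap.adjoint T (P n (P n (T (P n (y n)))))) := fun n => by
    simp only [Xo, mul_one, sub_apply, mul_apply_eq_comp]
  simp_rw [e]
  have h1 := h.tendsto' hy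
  have h2 := h.tendsto' (h.tendsto' ((T.continuous.tendsto z).comp h1))
  have h3 := h.tendsto' (((ContinuousLinearMap.adjoint T).continuous.tendsto _).comp h2)
  have h4 := (h.tendsto' h1).sub h3
  have h5 : z - ContinuousLinearMap.adjoint T (T z) = 0 := by
    rw [← mul_apply_eq_comp, hT.iso, one_apply_eq_self, sub_self]
  rw [h5] at h4
  exact h4

lemma Yo_tendsto {c : ℕ → ℂ} {T : L} (hT : Toep c T) {y : ℕ → E} {z : E}
    (hy : Tendsto y atTop (𝓝 z)) : Tendsto (fun n => Yo P T n (y n)) atTop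
      (𝓝 ((1 - T * ContinuousLinearMap.adjoint T) z)) := by
  have e : ∀ n, Yo P T n (y n) = P n ((1 - T * ContinuousLinearMap.adjoint T) (P n (y n))) :=
    fun n => by
      rw [Yo_eq h hT]; simp only [mul_apply_eq_comp]
  simp_rw [e]
  exact h.tendsto' (((1 - T * ContinuousLinearMap.adjoint T).continuous.tendsto z).comp
    (h.tendsto' hy))

lemma PXo (T : L) (n : ℕ) : P n * Xo P T n = Xo P T n := by
  have e1 : P n * Xo P T n = (P n * P n) * P n - ((P n * P n) *
    ContinuousLinearMap.adjoint T * P n) * (P n * T * P n) := by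
    unfold Xo; noncomm_ring
  rw [e1, h.pp, h.pp]
  unfold Xo
  rw [mul_one, h.pp]

lemma XoP (T : L) (n : ℕ) : Xo P T n * P n = Xo P T n := by
  have e1 : Xo P T n * P n = P n * (P n * P n) - (P n *
    ContinuousLinearMap.adjoint T * P n) * (P n * T * (P n * P n)) := by
    unfold Xo; noncomm_ring
  rw [e1, h.pp, h.pp]
  unfold Xo
  rw [mul_one, h.pp]

/-- strong limit of the product -/
lemma A_tendsto {c : ℕ → ℂ} {T : L} (hT : Toep c T) (x : E) :
    Tendsto (fun n => (Xo P T n * Yo P T n) x) atTop (𝓝 0) := by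
  simp only [mul_apply_eq_comp]
  exact Xo_tendsto h hT (Yo_tendsto h hT tendsto_const_nhds)

lemma WAW_eq {c c' : ℕ → ℂ} {T T' : L} (hT : Toep c T) (hT' : Toep c' T')
    (hc : ∀ n, c' n = conj (c n)) (n : ℕ) :
    W n * (Xo P T n * Yo P T n) * W n = Yo P T' n * Xo P T' n := by
  rw [← wXw h hT hT' hc, ← wYw h hT hT' hc]
  have e1 : W n * Xo P T n * W n * (W n * Yo P T n * W n) =
    W n * (Xo P T n * (W n * W n)) * Yo P T n * W n := by noncomm_ring
  rw [e1, h.ww, XoP h]
  noncomm_ring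

lemma WAW_tendsto {c c' : ℕ → ℂ} {T T' : L} (hT : Toep c T) (hT' : Toep c' T')
    (hc : ∀ n, c' n = conj (c n)) (x : E) :
    Tendsto (fun n => (W n * (Xo P T n * Yo P T n) * W n) x) atTop (𝓝 0) := by
  simp_rw [WAW_eq h hT hT' hc, mul_apply_eq_comp]
  have h1 := Yo_tendsto h hT' (Xo_tendsto h hT' (tendsto_const_nhds (x := x)))
  rwa [map_zero] at h1

lemma A_eq {c c' : ℕ → ℂ} {T T' : L} (hT : Toep c T) (hT' : Toep c' T')
    (hc : ∀ n, c' n = conj (c n)) (n : ℕ) :
    Xo P T n * Yo P T n = W n * (1 - T' * ContinuousLinearMap.adjoint T') * W n *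
      (1 - T * ContinuousLinearMap.adjoint T) * P n := by
  have h1 : Xo P T n = W n * (1 - T' * ContinuousLinearMap.adjoint T') * W n := by
    have e1 : W n * (W n * Xo P T n * W n) * W n = (W n * W n) * (Xo P T n * (W n * W n)) := by
      noncomm_ring
    rw [h.ww, XoP h, PXo h, wXw h hT hT' hc, Yo_eq h hT'] at e1
    rw [← e1]
    have e2 : W n * (P n * (1 - T' * ContinuousLinearMap.adjoint T') * P n) * W n =
      (W n * P n) * (1 - T' * ContinuousLinearMap.adjoint T') * (P n * W n) := by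
      simp only [mul_assoc]
    rw [e2, h.wp, h.pw]
  rw [h1, Yo_eq h hT]
  have e3 : W n * (1 - T' * ContinuousLinearMap.adjoint T') * W n *
      (P n * (1 - T * ContinuousLinearMap.adjoint T) * P n) =
      W n * (1 - T' * ContinuousLinearMap.adjoint T') * (W n * P n) *
      (1 - T * ContinuousLinearMap.adjoint T) * P n := by
    simp only [mul_assoc]
  rw [e3, h.wp]

end

/-- Compact operators send the basis to a null sequence. -/
lemma compact_null {K : L} (hK : IsCompactOperator K) :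
    Tendsto (fun n => K (ee n)) atTop (𝓝 0) := by
  have hw : ∀ z : E, Tendsto (fun n => ⟪z, K (ee n)⟫_ℂ) atTop (𝓝 0) := by
    intro z
    have e : ∀ n, ⟪z, K (ee n)⟫_ℂ = conj ((ContinuousLinearMap.adjoint K z) n) := fun n => by
      rw [← ContinuousLinearMap.adjoint_inner_left, inner_ee']
    simp_rw [e]
    have h1 := (hasSum_ee (ContinuousLinearMap.adjoint K z)).summable.tendsto_atTop_zero
    have h2 := h1.norm
    rw [norm_zero] at h2
    rw [tendsto_zero_iff_norm_tendsto_zero]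
    refine h2.congr fun n => ?_
    rw [norm_smul, norm_ee, mul_one, RCLike.norm_conj]
  obtain ⟨C, hC, hCs⟩ := hK.image_closedBall_subset_compact 1
  have hmem : ∀ n, K (ee n) ∈ C := fun n => hCs ⟨ee n, by simp [norm_ee], rfl⟩
  refine tendsto_of_subseq_tendsto fun ns hns => ?_
  obtain ⟨a, _, φ, hφ, hlim⟩ := hC.tendsto_subseq (x := fun k => K (ee (ns k))) (fun k => hmem _)
  refine ⟨φ, ?_⟩
  have h1 : Tendsto (fun k => ⟪a, K (ee (ns (φ k)))⟫_ℂ) atTop (𝓝 0) :=
    (hw a).comp (hns.comp hφ.tendsto_atTop)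
  have h2 : Tendsto (fun k => ⟪a, K (ee (ns (φ k)))⟫_ℂ) atTop (𝓝 ⟪a, a⟫_ℂ) :=
    tendsto_const_nhds.inner hlim
  have h3 := tendsto_nhds_unique h1 h2
  have h4 : a = 0 := inner_self_eq_zero.1 h3.symm
  rw [h4] at hlim
  exact hlim

end Pool.Agent.U588.FS
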