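import Pool.Agent.U588.FS.Low
import Pool.Agent.Helper34.Dg.Alg
import Pool.Agent.Helper34.Dg.Bl
import Pool.Agent.Helper34.Dg.SingPart

set_option autoImplicit false
open Filter Topology MeasureTheory
open scoped ComplexConjugate InnerProductSpace ENNReal

namespace Pool.Agent.U588.FS

/-- Columns of the Toeplitz matrix. -/
def colF (c : ℕ → ℂ) (k : ℕ) (i : ℕ) : ℂ := if k ≤ i then c (i - k) else 0

/-- Orthonormality of the columns. -/
def OrthoC (c : ℕ → ℂ) : Prop :=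
  ∀ j k, HasSum (fun i => conj (colF c j i) * colF c k i) (if j = k then (1 : ℂ) else 0)

lemma OrthoC.mem {c : ℕ → ℂ} (h : OrthoC c) (k : ℕ) : Memℓp (colF c k) 2 := by
  apply memℓp_gen
  have h1 := h k k
  rw [if_pos rfl] at h1
  have e : ∀ z : ℂ, conj z * z = ((‖z‖ ^ 2 : ℝ) : ℂ) := fun z => by
    rw [mul_comm, Complex.mul_conj, Complex.normSq_eq_norm_sq]
  simp_rw [e] at h1
  have h2 : HasSum (fun i => ‖colF c k i‖ ^ 2) (1 : ℝ) := by
    rw [← Complex.hasSum_ofReal, Complex.ofReal_one]; exact h1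
  have h3 := h2.summable
  refine h3.congr fun i => ?_
  simp

lemma exists_toep {c : ℕ → ℂ} (h : OrthoC c) : ∃ T : L, Toep c T := by
  set v : ℕ → E := fun k => ⟨colF c k, h.mem k⟩ with hv
  have hin : ∀ j k, ⟪v j, v k⟫_ℂ = if j = k then (1 : ℂ) else 0 := by
    intro j k
    rw [lp.inner_eq_tsum]
    have e : (fun i => ⟪(v j : ℕ → ℂ) i, (v k : ℕ → ℂ) i⟫_ℂ) =
        fun i => conj (colF c j i) * colF c k i := by
      funext i
      rw [RCLike.inner_apply, mul_comm]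
    rw [e]
    exact (h j k).tsum_eq
  have hon : Orthonormal ℂ v := by
    rw [orthonormal_iff_ite]
    exact hin
  set S := hon.orthogonalFamily.linearIsometry with hS
  have hSe : ∀ k, S (ee k) = v k := by
    intro k
    rw [hS]
    have h1 := hon.orthogonalFamily.linearIsometry_apply_single (i := k) (1 : ℂ)
    rw [show ee k = lp.single 2 k (1 : ℂ) from rfl, h1]
    simp
  refine ⟨S.toContinuousLinearMap, ?_, ?_⟩
  · intro j k
    change (S (ee k) : ℕ → ℂ) j = _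
    rw [hSe]
    rfl
  · apply ext_ee
    intro k
    ext j
    rw [mul_apply_eq_comp, adj_apply, one_apply_eq_self]
    change ⟪S (ee j), S (ee k)⟫_ℂ = _
    rw [S.inner_map_map, inner_ee]

lemma kernel_vec {c : ℕ → ℂ} {T : L} (hT : Toep c T) {r : ℝ} {y : E} (hy : Ker r y)
    (hz : HasSum (fun n => conj (c n) * (r : ℂ) ^ n) 0) : ContinuousLinearMap.adjoint T y = 0 := by
  ext j
  rw [adj_apply, lp.coeFn_zero, Pi.zero_apply]
  have h1 := lp.hasSum_inner (𝕜 := ℂ) (T (ee j)) y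
  refine h1.unique ?_
  have e : (fun i => ⟪(T (ee j) : ℕ → ℂ) i, (y : ℕ → ℂ) i⟫_ℂ) = fun i =>
      if j ≤ i then ((Real.sqrt (1 - r ^ 2) : ℝ) : ℂ) * (r : ℂ) ^ j *
        (conj (c (i - j)) * (r : ℂ) ^ (i - j)) else 0 := by
    funext i
    rw [RCLike.inner_apply, hT.e, hy.y]
    by_cases h2 : j ≤ i
    · rw [if_pos h2, if_pos h2]
      have h3 : (r : ℂ) ^ i = (r : ℂ) ^ j * (r : ℂ) ^ (i - j) := by rw [← pow_add]; congr 1; omega
      push_cast
      rw [h3]; ring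
    · rw [if_neg h2, if_neg h2]; simp
  rw [e]
  have h4 := hz.mul_left (((Real.sqrt (1 - r ^ 2) : ℝ) : ℂ) * (r : ℂ) ^ j)
  rw [mul_zero] at h4
  have h5 : Function.Injective (fun m : ℕ => m + j) := fun a b hab => by simpa using hab
  have h6 := (h5.hasSum_iff (f := fun i => if j ≤ i then ((Real.sqrt (1 - r ^ 2) : ℝ) : ℂ) *
    (r : ℂ) ^ j * (conj (c (i - j)) * (r : ℂ) ^ (i - j)) else 0) (a := (0 : ℂ)) (by
      intro i hi
      rw [if_neg]
      intro hji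
      exact hi ⟨i - j, by simp; omega⟩)).1
  apply h6
  simpa only [Function.comp_def, Nat.le_add_left, if_true, Nat.add_sub_cancel] using h4

lemma exists_ker {r : ℝ} (h0 : 0 < r) (h1 : r < 1) : ∃ y : E, Ker r y := by
  have hm : Memℓp (fun j : ℕ => ((Real.sqrt (1 - r ^ 2) * r ^ j : ℝ) : ℂ)) 2 := by
    apply memℓp_gen
    have h2 : Summable fun j : ℕ => (1 - r ^ 2) * (r ^ 2) ^ j :=
      (summable_geometric_of_lt_one (by positivity) (by nlinarith)).mul_left _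
    refine h2.congr fun j => ?_
    have h3 : Real.sqrt (1 - r ^ 2) ^ 2 = 1 - r ^ 2 := Real.sq_sqrt (by nlinarith)
    rw [Complex.norm_real, Real.norm_eq_abs, ENNReal.toReal_ofNat, Real.rpow_ofNat, sq_abs,
      mul_pow, h3]
    ring
  exact ⟨⟨_, hm⟩, h0, h1, fun j => rfl⟩

section Inner

open Pool.Agent.Helper34

lemma ortho_of_rep {u : ℂ → ℂ} {g : Dg.T → ℂ} (hg : Dg.Rep u g) :
    OrthoC fun n : ℕ => fourierCoeff g n := by
  intro j k
  have hb := hg.mem.1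
  have h := Dg.parseval2 (Dg.memLp2 (Dg.bdd_mul hb (Dg.bdd_e j)))
    (Dg.memLp2 (Dg.bdd_mul hb (Dg.bdd_e k)))
  simp only [Dg.fc_mul_e] at h
  have hint : ∫ t, conj (g t * Dg.e (j : ℤ) t) * (g t * Dg.e (k : ℤ) t) ∂Dg.mu =
      if j = k then (1 : ℂ) else 0 := by
    have e1 : ∫ t, conj (g t * Dg.e (j : ℤ) t) * (g t * Dg.e (k : ℤ) t) ∂Dg.mu =
        ∫ t, Dg.e ((k : ℤ) - j) t ∂Dg.mu := by
      apply integral_congr_ae
      filter_upwards [hg.one] with t ht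
      have h1 : conj (g t) * g t = 1 := by
        rw [mul_comm, Complex.mul_conj, Complex.normSq_eq_norm_sq, ht]; simp
      rw [sub_eq_add_neg, Dg.e_add, Dg.e_neg, map_mul]
      calc conj (g t) * conj (Dg.e (j : ℤ) t) * (g t * Dg.e (k : ℤ) t)
          = (conj (g t) * g t) * (Dg.e (k : ℤ) t * conj (Dg.e (j : ℤ) t)) := by ring
        _ = _ := by rw [h1, one_mul]
    rw [e1, Dg.int_e]
    by_cases hjk : j = k
    · subst hjk; simp
    · rw [if_neg hjk, if_neg (by omega)]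
  rw [hint] at h
  have hinj : Function.Injective (fun n : ℕ => (n : ℤ)) := Nat.cast_injective
  have h2 := (hinj.hasSum_iff (f := fun i : ℤ => conj (fourierCoeff g (i - j)) *
    fourierCoeff g (i - k)) (by
      intro i hi
      have hi' : i < 0 := by
        by_contra hc
        push Not at hc
        exact hi ⟨i.toNat, by simp [hc]⟩
      rw [hg.mem.2 (i - k) (by omega), mul_zero])).2 h
  convert h2 using 1
  funext i
  simp only [colF, Function.comp_apply]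
  congr 1
  · by_cases hji : j ≤ i
    · rw [if_pos hji]; congr 2; omega
    · rw [if_neg hji, hg.mem.2 _ (by omega)]
  · by_cases hji : k ≤ i
    · rw [if_pos hji]; congr 1; omega
    · rw [if_neg hji, hg.mem.2 _ (by omega)]

lemma ortho_conj {c : ℕ → ℂ} (h : OrthoC c) : OrthoC fun n => conj (c n) := by
  intro j k
  have h1 := (h j k).map (starRingEnd ℂ) Complex.continuous_conj
  convert h1 using 1
  · funext i
    simp only [Function.comp_apply, map_mul, colF]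
    congr 1
    · split_ifs <;> simp
    · split_ifs <;> simp
  · split_ifs <;> simp

/-- The radii. -/
noncomputable def rad (k : ℕ) : ℝ := 1 - 1 / (2 : ℝ) ^ (k + 1)

lemma rad_pos (k : ℕ) : 1 / 2 ≤ rad k := by
  unfold rad
  have h1 : (2 : ℝ) ≤ 2 ^ (k + 1) := by
    calc (2 : ℝ) = 2 ^ 1 := by norm_num
      _ ≤ 2 ^ (k + 1) := pow_le_pow_right₀ (by norm_num) (by omega)
  have h2 : 1 / (2 : ℝ) ^ (k + 1) ≤ 1 / 2 := by
    apply one_div_le_one_div_of_le (by norm_num) h1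
  linarith

lemma rad_lt (k : ℕ) : rad k < 1 := by
  unfold rad
  have : 0 < 1 / (2 : ℝ) ^ (k + 1) := by positivity
  linarith

lemma exists_rep : ∃ (u : ℂ → ℂ) (g : Dg.T → ℂ), Dg.Rep u g ∧ ∀ k, u (rad k : ℂ) = 0 := by
  set a : ℕ → ℂ := fun k => ((rad k : ℝ) : ℂ) with ha
  have hn : ∀ k, ‖a k‖ = rad k := fun k => by
    rw [ha]; simp only
    rw [Complex.norm_real, Real.norm_eq_abs, abs_of_pos (by linarith [rad_pos k])]
  have hd : ∀ k, a k ∈ Dg.disc := fun k => by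
    rw [Dg.mem_disc, hn]; exact rad_lt k
  have hs : Summable fun k => 1 - ‖a k‖ := by
    have h1 : Summable fun k : ℕ => (1 / 2 : ℝ) * (1 / 2) ^ k :=
      (summable_geometric_of_lt_one (by norm_num) (by norm_num)).mul_left _
    refine h1.congr fun k => ?_
    rw [hn]; unfold rad
    rw [one_div_pow, pow_succ]
    field_simp
    ring
  have hB : Dg.IsBlaschke (Dg.bprod a) :=
    ⟨1, ℕ, a, by simp, hd, hs, fun z hz => ⟨_, Dg.fam_hasProd hd hs hz, by rw [one_mul]⟩⟩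
  obtain ⟨g, hg⟩ := Dg.inner_rep hB.inner
  exact ⟨_, g, hg, fun k => Dg.hasProd_zero_of (Dg.fam_hasProd hd hs (hd k)) (i := k)
    (Dg.bfac_self _)⟩

lemma rep_zero {u : ℂ → ℂ} {g : Dg.T → ℂ} (hg : Dg.Rep u g) {r : ℝ} (h0 : 0 ≤ r) (h1 : r < 1)
    (hu : u (r : ℂ) = 0) : HasSum (fun n : ℕ => fourierCoeff g n * (r : ℂ) ^ n) 0 := by
  have hr : ‖(r : ℂ)‖ < 1 := by rw [Complex.norm_real, Real.norm_eq_abs, abs_of_nonneg h0]; exact h1
  have h2 := Dg.hasSum_ext (Dg.memLp_integrable hg.mem.1) hr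
  rwa [hg.ext _ (Dg.mem_disc.2 hr), hu] at h2

end Inner

lemma pow_lower (k : ℕ) : 1 / 4 ≤ rad k ^ (2 ^ (k + 1)) := by
  induction k with
  | zero => unfold rad; norm_num
  | succ k ih =>
    refine ih.trans ?_
    have e1 : rad (k + 1) ^ (2 ^ (k + 1 + 1)) = (rad (k + 1) ^ 2) ^ (2 ^ (k + 1)) := by
      rw [← pow_mul]; congr 1; rw [pow_succ 2 (k + 1)]; ring
    rw [e1]
    refine pow_le_pow_left₀ (by linarith [rad_pos k]) ?_ _
    unfold rad
    have h2 : (1 : ℝ) / 2 ^ (k + 1) = 2 * (1 / 2 ^ (k + 1 + 1)) := by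
      rw [pow_succ 2 (k + 1)]; field_simp
    rw [h2]
    nlinarith [sq_nonneg ((1 : ℝ) / 2 ^ (k + 1 + 1))]

lemma pow_upper (k : ℕ) : rad k ^ (2 ^ (k + 1)) ≤ 1 / 2 := by
  have h1 := Real.one_sub_div_pow_le_exp_neg (n := 2 ^ (k + 1)) (t := 1) (by
    exact_mod_cast Nat.one_le_two_pow)
  have h2 := Real.exp_neg_one_lt_d9
  unfold rad
  push_cast at h1
  linarith

lemma lower_num (k : ℕ) : (1 / 4 : ℝ) ^ 5 ≤
    (1 - rad k ^ (2 * ((5 * 2 ^ (k + 1) - 1) + 1))) ^ 2 *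
    (((5 * 2 ^ (k + 1) - 1 : ℕ) + 1 : ℝ) * ((1 - rad k ^ 2) * rad k ^ (5 * 2 ^ (k + 1) - 1))) -
    2 * rad k ^ ((5 * 2 ^ (k + 1) - 1) + 1) - rad k ^ (2 * ((5 * 2 ^ (k + 1) - 1) + 1)) := by
  have hN : 1 ≤ 2 ^ (k + 1) := Nat.one_le_two_pow
  have e1 : 5 * 2 ^ (k + 1) - 1 + 1 = 5 * 2 ^ (k + 1) := by omega
  have e2 : ((5 * 2 ^ (k + 1) - 1 : ℕ) + 1 : ℝ) = 5 * 2 ^ (k + 1) := by
    exact_mod_cast congrArg (Nat.cast (R := ℝ)) e1
  have hl := pow_lower k
  have hu := pow_upper k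
  have hr := rad_pos k
  have hr1 := rad_lt k
  set a : ℝ := rad k ^ (2 ^ (k + 1)) with ha
  have e3 : rad k ^ (5 * 2 ^ (k + 1)) = a ^ 5 := by rw [ha, ← pow_mul]; congr 1; ring
  have e4 : rad k ^ (2 * (5 * 2 ^ (k + 1))) = a ^ 10 := by rw [ha, ← pow_mul]; congr 1; ring
  rw [e1, e2, e3, e4]
  have h1 : a ^ 5 ≤ rad k ^ (5 * 2 ^ (k + 1) - 1) := by
    rw [← e3]
    exact pow_le_pow_of_le_one (by linarith) hr1.le (by omega)
  have h2 : (5 * 2 ^ (k + 1) : ℝ) * (1 - rad k ^ 2) = 5 * (1 + rad k) := by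
    have h3 : (1 - rad k) * 2 ^ (k + 1) = 1 := by
      unfold rad; field_simp; ring
    calc (5 * 2 ^ (k + 1) : ℝ) * (1 - rad k ^ 2) = 5 * (1 + rad k) * ((1 - rad k) * 2 ^ (k + 1)) := by
          ring
      _ = _ := by rw [h3, mul_one]
  have h4 : (5 * 2 ^ (k + 1) : ℝ) * ((1 - rad k ^ 2) * rad k ^ (5 * 2 ^ (k + 1) - 1)) ≥
      (15 / 2) * a ^ 5 := by
    rw [← mul_assoc, h2]
    have : 0 ≤ a ^ 5 := by positivity
    nlinarith
  have ha0 : 0 < a := by linarith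
  have h5 : a ^ 5 ≤ 1 / 32 := by
    calc a ^ 5 ≤ (1 / 2) ^ 5 := pow_le_pow_left₀ ha0.le hu 5
      _ = 1 / 32 := by norm_num
  have h6 : (1 / 4 : ℝ) ^ 5 ≤ a ^ 5 := pow_le_pow_left₀ (by norm_num) hl 5
  have e5 : a ^ 10 = a ^ 5 * a ^ 5 := by ring
  rw [e5]
  set b : ℝ := a ^ 5
  have hb : 0 < b := by positivity
  have h7 : (1 - b * b) ^ 2 ≥ 9 / 10 := by nlinarith
  have h8 : (1 - b * b) ^ 2 * ((5 * 2 ^ (k + 1) : ℝ) * ((1 - rad k ^ 2) *
      rad k ^ (5 * 2 ^ (k + 1) - 1))) ≥ 9 / 10 * ((15 / 2) * b) := by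
    gcongr
  nlinarith

end Pool.Agent.U588.FS
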