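import Pool.Agent.U588.FS.Abs

set_option autoImplicit false
open Filter Topology
open scoped ComplexConjugate InnerProductSpace

namespace Pool.Agent.U588.FS

section

variable {P W : ℕ → L} (h : PW P W)
include h

lemma K_zero {K K' : L} (hK' : IsCompactOperator K') {D : ℕ → L}
    (hD : Tendsto (fun n => ‖D n‖) atTop (𝓝 0))
    (hA : ∀ x, Tendsto (fun n => (P n * K * P n + W n * K' * W n + D n) x) atTop (𝓝 0)) :
    K = 0 := by
  apply ext_ee
  intro i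
  have h1 : Tendsto (fun n => P n (K (P n (ee i)))) atTop (𝓝 (K (ee i))) :=
    h.tendsto' ((K.continuous.tendsto _).comp (h.tendsto (ee i)))
  have h2 : Tendsto (fun n => W n (K' (W n (ee i)))) atTop (𝓝 0) := by
    have h3 : Tendsto (fun n => ‖K' (ee (n - i))‖) atTop (𝓝 0) := by
      have := (compact_null hK').comp (tendsto_sub_atTop_nat i)
      simpa using this.norm
    refine squeeze_zero_norm' ?_ h3
    filter_upwards [eventually_ge_atTop i] with n hn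
    rw [h.we, if_pos hn]
    exact h.wnorm n _
  have h4 : Tendsto (fun n => D n (ee i)) atTop (𝓝 0) := by
    refine squeeze_zero_norm (fun n => (D n).le_opNorm _) ?_
    simpa [norm_ee] using hD
  have h5 := (h1.add h2).add h4
  have h6 := hA (ee i)
  have h7 : (fun n => (P n * K * P n + W n * K' * W n + D n) (ee i)) = fun n =>
      P n (K (P n (ee i))) + W n (K' (W n (ee i))) + D n (ee i) := by
    funext n
    simp only [add_apply, mul_apply_eq_comp]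
  rw [h7] at h6
  have h8 := tendsto_nhds_unique h5 h6
  simpa using h8

lemma J_null {A : ℕ → L} {K K' : L} (hK : IsCompactOperator K) (hK' : IsCompactOperator K')
    {C : ℕ → L} (hC0 : Tendsto (fun n => ‖C n‖) atTop (𝓝 0))
    (hA : ∀ n, A n = P n * K * P n + W n * K' * W n + C n)
    (h1 : ∀ x, Tendsto (fun n => A n x) atTop (𝓝 0))
    (h2 : ∀ x, Tendsto (fun n => (W n * A n * W n) x) atTop (𝓝 0)) :
    Tendsto (fun n => ‖A n‖) atTop (𝓝 0) := by
  have k1 : K = 0 := by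
    refine K_zero h hK' hC0 fun x => ?_
    simp_rw [← hA]
    exact h1 x
  have k2 : K' = 0 := by
    have e : ∀ n, W n * A n * W n = P n * K' * P n + W n * K * W n + W n * C n * W n := by
      intro n
      have e1 : W n * A n * W n = (W n * W n) * K' * (W n * W n) +
          (W n * P n) * K * (P n * W n) + W n * C n * W n := by
        rw [hA]; noncomm_ring
      rw [e1, h.ww, h.wp, h.pw]
    refine K_zero h (K' := K) hK (D := fun n => W n * C n * W n) ?_ fun x => ?_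
    · have wn : ∀ n, ‖W n‖ ≤ 1 := fun n =>
        ContinuousLinearMap.opNorm_le_bound _ zero_le_one fun x => by
          rw [one_mul]; exact h.wnorm n x
      refine squeeze_zero (fun n => norm_nonneg _) (fun n => ?_) hC0
      calc ‖W n * C n * W n‖ ≤ ‖W n‖ * ‖C n‖ * ‖W n‖ :=
            (norm_mul_le _ _).trans (mul_le_mul_of_nonneg_right (norm_mul_le _ _) (norm_nonneg _))
        _ ≤ 1 * ‖C n‖ * 1 := by
            have := wn n
            have h3 := norm_nonneg (W n)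
            have h4 := norm_nonneg (C n)
            gcongr
        _ = ‖C n‖ := by ring
    · simp_rw [← e]
      exact h2 x
  have e : ∀ n, A n = C n := fun n => by
    rw [hA, k1, k2]; noncomm_ring
  simp_rw [e]
  exact hC0

lemma inner_P (x y : E) (n : ℕ) : ⟪P n x, y⟫_ℂ = ∑ j ∈ Finset.range (n + 1), conj (x j) * y j := by
  rw [lp.inner_eq_tsum, tsum_eq_sum (s := Finset.range (n + 1))]
  · refine Finset.sum_congr rfl fun j hj => ?_
    rw [h.p, if_pos (by simpa [Nat.lt_succ_iff] using hj)]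
    rw [RCLike.inner_apply]
    ring
  · intro j hj
    rw [h.p, if_neg (by simpa [Nat.lt_succ_iff] using hj), inner_zero_left]

end

/-- The projection onto the kernel of the adjoint. -/
noncomputable def Pr (T : L) : L := 1 - T * ContinuousLinearMap.adjoint T

section

variable {c : ℕ → ℂ} {T : L} (hT : Toep c T)

lemma Pr_adj (T : L) : ContinuousLinearMap.adjoint (Pr T) = Pr T := by
  unfold Pr
  rw [map_sub, ContinuousLinearMap.mul_def, ContinuousLinearMap.adjoint_comp,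
    ContinuousLinearMap.adjoint_adjoint]
  congr 1
  rw [← ContinuousLinearMap.star_eq_adjoint, star_one]

include hT in
lemma Pr_sq : Pr T * Pr T = Pr T := by
  have e : Pr T * Pr T = 1 - T * ContinuousLinearMap.adjoint T - T *
    ContinuousLinearMap.adjoint T + T * (ContinuousLinearMap.adjoint T * T) *
      ContinuousLinearMap.adjoint T := by unfold Pr; noncomm_ring
  rw [e, hT.iso]; unfold Pr; noncomm_ring

lemma Pr_inner (T : L) (x y : E) : ⟪Pr T x, y⟫_ℂ = ⟪x, Pr T y⟫_ℂ := by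
  conv_lhs => rw [← Pr_adj T]
  rw [ContinuousLinearMap.adjoint_inner_left]

include hT in
lemma Pr_norm (x : E) : ‖Pr T x‖ ≤ ‖x‖ := by
  have h1 : ⟪Pr T x, Pr T x⟫_ℂ = ⟪x, Pr T x⟫_ℂ := by
    rw [Pr_inner, ← mul_apply_eq_comp, Pr_sq hT]
  have h2 : ‖Pr T x‖ ^ 2 ≤ ‖x‖ * ‖Pr T x‖ := by
    rw [norm_sq_eq, h1]
    exact (Complex.re_le_norm _).trans (norm_inner_le_norm _ _)
  by_contra hc
  push Not at hc
  nlinarith [norm_nonneg x, norm_nonneg (Pr T x)]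

lemma Pr_fix {y : E} (hy : ContinuousLinearMap.adjoint T y = 0) : Pr T y = y := by
  unfold Pr
  rw [sub_apply, mul_apply_eq_comp, hy, map_zero, sub_zero, one_apply_eq_self]

end

/-- The normalised kernel vector. -/
structure Ker (r : ℝ) (y : E) : Prop where
  pos : 0 < r
  lt : r < 1
  y : ∀ j, y j = ((Real.sqrt (1 - r ^ 2) * r ^ j : ℝ) : ℂ)

section

variable {P W : ℕ → L} (h : PW P W) {r : ℝ} {y : E} (hy : Ker r y)
include h hy

lemma ker_P (n : ℕ) : ⟪P n y, y⟫_ℂ = ((1 - r ^ (2 * (n + 1)) : ℝ) : ℂ) := by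
  rw [inner_P h]
  have h1 : ∀ j, conj (y j) * y j = (((1 - r ^ 2) * (r ^ 2) ^ j : ℝ) : ℂ) := by
    intro j
    rw [hy.y, Complex.conj_ofReal, ← Complex.ofReal_mul]
    congr 1
    have h2 : Real.sqrt (1 - r ^ 2) ^ 2 = 1 - r ^ 2 := Real.sq_sqrt (by
      have := hy.pos; have := hy.lt; nlinarith)
    calc Real.sqrt (1 - r ^ 2) * r ^ j * (Real.sqrt (1 - r ^ 2) * r ^ j)
        = Real.sqrt (1 - r ^ 2) ^ 2 * (r ^ 2) ^ j := by rw [← pow_mul]; ring
      _ = _ := by rw [h2]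
  simp_rw [h1]
  rw [← Complex.ofReal_sum, ← Finset.mul_sum]
  congr 1
  have h3 := mul_neg_geom_sum (r ^ 2) (n + 1)
  rw [h3, ← pow_mul]

lemma ker_W (n : ℕ) : ⟪W n y, y⟫_ℂ = (((n + 1 : ℝ) * ((1 - r ^ 2) * r ^ n) : ℝ) : ℂ) := by
  rw [← h.pw, mul_apply_eq_comp, inner_P h]
  have h2 : Real.sqrt (1 - r ^ 2) ^ 2 = 1 - r ^ 2 := Real.sq_sqrt (by
      have := hy.pos; have := hy.lt; nlinarith)
  have h1 : ∀ j ∈ Finset.range (n + 1), conj ((W n y) j) * y j =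
      (((1 - r ^ 2) * r ^ n : ℝ) : ℂ) := by
    intro j hj
    have hj' : j ≤ n := by simpa [Nat.lt_succ_iff] using hj
    rw [h.w, if_pos hj', hy.y, hy.y, Complex.conj_ofReal, ← Complex.ofReal_mul]
    congr 1
    have h4 : r ^ n = r ^ (n - j) * r ^ j := by rw [← pow_add]; congr 1; omega
    calc Real.sqrt (1 - r ^ 2) * r ^ (n - j) * (Real.sqrt (1 - r ^ 2) * r ^ j)
        = Real.sqrt (1 - r ^ 2) ^ 2 * (r ^ (n - j) * r ^ j) := by ring
      _ = _ := by rw [h2, h4]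
  rw [Finset.sum_congr rfl h1, Finset.sum_const, Finset.card_range, nsmul_eq_mul]
  push_cast
  ring

lemma ker_one : ⟪y, y⟫_ℂ = 1 := by
  have h1 := (h.tendsto y).inner (tendsto_const_nhds (x := y) (f := atTop)) (𝕜 := ℂ)
  simp_rw [ker_P h hy] at h1
  refine tendsto_nhds_unique h1 ?_
  have h2 : Tendsto (fun n : ℕ => 1 - r ^ (2 * (n + 1))) atTop (𝓝 (1 - 0)) := by
    refine tendsto_const_nhds.sub ?_
    have h3 := tendsto_pow_atTop_nhds_zero_of_lt_one hy.pos.le hy.lt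
    exact h3.comp (tendsto_atTop_mono (fun n => show n ≤ 2 * (n + 1) by omega) tendsto_id)
  rw [sub_zero] at h2
  exact_mod_cast (Complex.continuous_ofReal.tendsto _).comp h2

lemma ker_norm : ‖y‖ = 1 := by
  have h1 := norm_sq_eq y
  rw [ker_one h hy] at h1
  simp at h1
  rcases h1 with h1 | h1
  · exact h1
  · linarith [norm_nonneg y]

lemma ker_Pnorm (n : ℕ) : ‖P n y‖ ^ 2 = 1 - r ^ (2 * (n + 1)) := by
  have h1 : ⟪P n y, P n y⟫_ℂ = ⟪P n y, y⟫_ℂ := by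
    conv_lhs => rw [← h.padj n]
    rw [ContinuousLinearMap.adjoint_inner_left, h.padj, ← mul_apply_eq_comp, h.pp]
    conv_rhs => rw [← h.padj n]
    rw [ContinuousLinearMap.adjoint_inner_left]
  rw [norm_sq_eq, h1, ker_P h hy, Complex.ofReal_re]

lemma ker_err {c : ℕ → ℂ} {T : L} (hT : Toep c T) (hTy : ContinuousLinearMap.adjoint T y = 0)
    (n : ℕ) : ∃ e : E, Pr T (P n y) = ((1 - r ^ (2 * (n + 1)) : ℝ) : ℂ) • y + e ∧
      ‖e‖ ≤ r ^ (n + 1) := by
  set δ : ℝ := r ^ (2 * (n + 1)) with hδ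
  have hδ0 : 0 < δ := pow_pos hy.pos _
  have hδ1 : δ < 1 := pow_lt_one₀ hy.pos.le hy.lt (by omega)
  refine ⟨Pr T (P n y) - ((1 - δ : ℝ) : ℂ) • y, by abel, ?_⟩
  set q := Pr T (P n y)
  have h1 : ⟪q, y⟫_ℂ = ((1 - δ : ℝ) : ℂ) := by
    rw [Pr_inner, Pr_fix hTy, ker_P h hy]
  have h2 : ‖q‖ ^ 2 ≤ 1 - δ := by
    rw [← ker_Pnorm h hy n]
    exact pow_le_pow_left₀ (norm_nonneg _) (Pr_norm hT _) 2
  have h3 : ‖q - ((1 - δ : ℝ) : ℂ) • y‖ ^ 2 = ‖q‖ ^ 2 - 2 * ((1 - δ) * (1 - δ)) + (1 - δ) ^ 2 := by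
    rw [@norm_sub_sq ℂ, inner_smul_right, h1, norm_smul, ker_norm h hy, mul_one,
      Complex.norm_real, Real.norm_eq_abs, sq_abs, ← Complex.ofReal_mul]
    simp
  have h4 : ‖q - ((1 - δ : ℝ) : ℂ) • y‖ ^ 2 ≤ (r ^ (n + 1)) ^ 2 := by
    rw [h3, ← pow_mul, mul_comm (n + 1) 2, ← hδ]
    nlinarith
  exact le_of_sq_le_sq h4 (pow_nonneg hy.pos.le _)

lemma lower {c c' : ℕ → ℂ} {T T' : L} (hT : Toep c T) (hT' : Toep c' T')
    (hc : ∀ n, c' n = conj (c n)) (hTy : ContinuousLinearMap.adjoint T y = 0)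
    (hTy' : ContinuousLinearMap.adjoint T' y = 0) (n : ℕ) :
    (1 - r ^ (2 * (n + 1))) ^ 2 * ((n + 1 : ℝ) * ((1 - r ^ 2) * r ^ n)) - 2 * r ^ (n + 1) -
      r ^ (2 * (n + 1)) ≤ ‖Xo P T n * Yo P T n‖ := by
  obtain ⟨e, he, hen⟩ := ker_err h hy hT hTy n
  obtain ⟨e', he', hen'⟩ := ker_err h hy hT' hTy' n
  set δ : ℝ := r ^ (2 * (n + 1)) with hδ
  have hδ0 : 0 < δ := pow_pos hy.pos _
  have hδ1 : δ < 1 := pow_lt_one₀ hy.pos.le hy.lt (by omega)
  set ρ : ℝ := r ^ (n + 1) with hρ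
  have hρ0 : 0 < ρ := pow_pos hy.pos _
  have hρδ : ρ * ρ = δ := by rw [hρ, hδ, ← pow_add]; congr 1; omega
  have hyn := ker_norm h hy
  -- the pairing
  have s1 : ⟪(Xo P T n * Yo P T n) (P n y), W n (P n y)⟫_ℂ =
      ⟪W n (Pr T (P n y)), Pr T' (P n y)⟫_ℂ := by
    rw [A_eq h hT hT' hc]
    change ⟪(W n * Pr T' * W n * Pr T * P n) (P n y), _⟫_ℂ = _
    simp only [mul_apply_eq_comp]
    conv_lhs => rw [← h.wadj n]
    rw [ContinuousLinearMap.adjoint_inner_left, h.wadj, ← mul_apply_eq_comp (W n) (W n), h.ww,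
      ← mul_apply_eq_comp (P n) (P n), h.pp, Pr_inner]
  have s2 : ‖⟪W n (Pr T (P n y)), Pr T' (P n y)⟫_ℂ‖ ≤ ‖Xo P T n * Yo P T n‖ := by
    rw [← s1]
    refine (norm_inner_le_norm _ _).trans ?_
    have a1 : ‖P n y‖ ≤ 1 := (h.pnorm n y).trans hyn.le
    have a2 : ‖W n (P n y)‖ ≤ 1 := (h.wnorm n _).trans a1
    have a3 := (Xo P T n * Yo P T n).le_opNorm (P n y)
    have a4 := norm_nonneg (Xo P T n * Yo P T n)
    calc _ ≤ (‖Xo P T n * Yo P T n‖ * ‖P n y‖) * ‖W n (P n y)‖ := by gcongr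
      _ ≤ (‖Xo P T n * Yo P T n‖ * 1) * 1 := by gcongr
      _ = _ := by ring
  rw [he, he'] at s2
  have s3 : ⟪W n (((1 - δ : ℝ) : ℂ) • y + e), ((1 - δ : ℝ) : ℂ) • y + e'⟫_ℂ =
      (((1 - δ) ^ 2 * ((n + 1 : ℝ) * ((1 - r ^ 2) * r ^ n)) : ℝ) : ℂ) +
      ((1 - δ : ℝ) : ℂ) * ⟪W n y, e'⟫_ℂ + ((1 - δ : ℝ) : ℂ) * ⟪W n e, y⟫_ℂ + ⟪W n e, e'⟫_ℂ := by
    rw [map_add, map_smul, inner_add_left, inner_add_right, inner_add_right, inner_smul_left,
      inner_smul_left, inner_smul_right, inner_smul_right, ker_W h hy, Complex.conj_ofReal]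
    push_cast
    ring
  have t1 : ‖⟪W n y, e'⟫_ℂ‖ ≤ ρ := by
    refine (norm_inner_le_norm _ _).trans ?_
    have a2 : ‖W n y‖ ≤ 1 := (h.wnorm n _).trans hyn.le
    calc _ ≤ 1 * ρ := by gcongr
      _ = ρ := one_mul _
  have t2 : ‖⟪W n e, y⟫_ℂ‖ ≤ ρ := by
    refine (norm_inner_le_norm _ _).trans ?_
    have a2 : ‖W n e‖ ≤ ρ := (h.wnorm n _).trans hen
    rw [hyn, mul_one]; exact a2
  have t3 : ‖⟪W n e, e'⟫_ℂ‖ ≤ δ := by
    refine (norm_inner_le_norm _ _).trans ?_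
    have a2 : ‖W n e‖ ≤ ρ := (h.wnorm n _).trans hen
    rw [← hρδ]
    gcongr
  have u : ∀ z : ℂ, -‖z‖ ≤ z.re := fun z => (abs_le.1 (Complex.abs_re_le_norm z)).1
  have v := Complex.re_le_norm (⟪W n (((1 - δ : ℝ) : ℂ) • y + e), ((1 - δ : ℝ) : ℂ) • y + e'⟫_ℂ)
  rw [s3] at v
  rw [Complex.add_re, Complex.add_re, Complex.add_re, Complex.ofReal_re, Complex.re_ofReal_mul,
    Complex.re_ofReal_mul, ← s3] at v
  have u1 := u ⟪W n y, e'⟫_ℂ
  have u2 := u ⟪W n e, y⟫_ℂ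
  have u3 := u ⟪W n e, e'⟫_ℂ
  have w1 : -ρ ≤ (1 - δ) * (⟪W n y, e'⟫_ℂ).re := by nlinarith
  have w2 : -ρ ≤ (1 - δ) * (⟪W n e, y⟫_ℂ).re := by nlinarith
  linarith

end

end Pool.Agent.U588.FS
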